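import Mathlib
set_option autoImplicit false
open Set Filter Topology MeasureTheory Metric
open scoped ContDiff

/-!
Squeezing functions on pseudoconvex domains (S05773): definitions and the statements of the
self-contained lemmas `S_...`.
-/

namespace Pool.Agent.W722.Sq

/-- `ℂⁿ` -/
abbrev E (n : ℕ) := EuclideanSpace ℂ (Fin n)

/-- four times the Levi form of `φ` at `z` in the direction `X` -/
noncomputable def Levi {n : ℕ} (φ : E n → ℝ) (z X : E n) : ℝ :=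
  fderiv ℝ (fderiv ℝ φ) z X X + fderiv ℝ (fderiv ℝ φ) z (Complex.I • X) (Complex.I • X)

/-- the Laplacian of a function on `ℂ` -/
noncomputable def Lap (w : ℂ → ℝ) (τ : ℂ) : ℝ :=
  fderiv ℝ (fderiv ℝ w) τ 1 1 + fderiv ℝ (fderiv ℝ w) τ Complex.I Complex.I

/-- a bounded pseudoconvex domain with smooth boundary -/
structure Dom {n : ℕ} (Ω : Set (E n)) (ρ : E n → ℝ) : Prop where
  bdd : Bornology.IsBounded Ω
  smooth : ContDiff ℝ ((⊤ : ℕ∞) : WithTop ℕ∞) ρ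
  eq : Ω = {x | ρ x < 0}
  ndeg : ∀ p ∈ frontier Ω, fderiv ℝ ρ p ≠ 0
  psc : ∀ p ∈ frontier Ω, ∀ w : E n, fderiv ℝ ρ p w = 0 → fderiv ℝ ρ p (Complex.I • w) = 0 →
    0 ≤ Levi ρ p w

/-- HOPF: lower bound for nonnegative superharmonic functions on a disc -/
def S_hopf : Prop := ∀ (w : ℂ → ℝ) (R r m : ℝ), 0 < r → r < R → 0 ≤ m →
  ContDiffOn ℝ 2 w (ball 0 R) → (∀ τ ∈ ball (0 : ℂ) R, 0 ≤ w τ) →
  (∀ τ ∈ ball (0 : ℂ) R, Lap w τ ≤ 0) → (∀ τ ∈ sphere (0 : ℂ) r, m ≤ w τ) →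
  ∀ τ ∈ ball (0 : ℂ) R, r ≤ ‖τ‖ → m * Real.log (R / ‖τ‖) / Real.log (R / r) ≤ w τ

/-- COMP: composition with a holomorphic disc -/
def S_comp : Prop := ∀ (n : ℕ) (φ : E n → ℝ) (g : ℂ → E n) (τ : ℂ), ContDiffAt ℝ 2 φ (g τ) →
  AnalyticAt ℂ g τ → ContDiffAt ℝ 2 (fun σ => φ (g σ)) τ ∧
    Lap (fun σ => φ (g σ)) τ = Levi φ (g τ) (deriv g τ)

/-- the local Diederich-Fornaess function -/
noncomputable def DF {n : ℕ} (ρ : E n → ℝ) (p : E n) (K η : ℝ) (z : E n) : ℝ :=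
  ((-ρ z) * Real.exp (-K * ‖z - p‖ ^ 2)) ^ η

/-- DF: near a boundary point `DF ρ p K η` is plurisuperharmonic, for every exponent `η < 1` -/
def S_df : Prop := ∀ (n : ℕ) (Ω : Set (E n)) (ρ : E n → ℝ), Dom Ω ρ → ∀ p ∈ frontier Ω, ∀ η : ℝ,
  0 < η → η < 1 → ∃ r K : ℝ, 0 < r ∧ 0 ≤ K ∧ ∀ z ∈ Ω, z ∈ ball p r →
    ContDiffAt ℝ 2 (DF ρ p K η) z ∧ ∀ X : E n, Levi (DF ρ p K η) z X ≤ 0

/-- UP: at a weakly pseudoconvex point, discs of radius `c x^(1/3)` in the null direction -/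
def S_up : Prop := ∀ (n : ℕ) (Ω : Set (E n)) (ρ : E n → ℝ), Dom Ω ρ → ∀ p ∈ frontier Ω,
  ∀ W e : E n, fderiv ℝ ρ p W = 0 → fderiv ℝ ρ p (Complex.I • W) = 0 → Levi ρ p W = 0 →
  fderiv ℝ ρ p e < 0 → fderiv ℝ ρ p (Complex.I • e) = 0 →
  ∃ c x0 : ℝ, 0 < c ∧ 0 < x0 ∧ ∀ x : ℝ, 0 < x → x < x0 → ∃ g : ℂ → E n, Differentiable ℂ g ∧
    g 0 = p + (x : ℂ) • e ∧ deriv g 0 = ((c * x ^ (1 / 3 : ℝ) : ℝ) : ℂ) • W ∧
    MapsTo g (ball 0 1) Ω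

/-- MEAN: mean value inequality for `log |φ|² + |ψ|²` -/
def S_mean : Prop := ∀ (φ ψ : ℂ → ℂ) (c : ℂ) (r R : ℝ), 0 < r → r < R →
  DifferentiableOn ℂ φ (ball c R) → DifferentiableOn ℂ ψ (ball c R) → φ c ≠ 0 → ψ c = 0 →
  CircleIntegrable (fun z => Real.log (‖φ z‖ ^ 2) + ‖ψ z‖ ^ 2) c r ∧
  Real.log (‖φ c‖ ^ 2) + r ^ 2 * ‖deriv ψ c‖ ^ 2 ≤
    Real.circleAverage (fun z => Real.log (‖φ z‖ ^ 2) + ‖ψ z‖ ^ 2) c r

/-- logarithm of the real points of the circle of radius `1/4` about `1` -/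
noncomputable def om (δ θ : ℝ) : ℝ := -Real.log (1 + Real.cos θ / 4 - δ)

/-- REAL: a monotone function of slope at most `2/3` cannot satisfy the mean value inequality -/
def S_real : Prop := ∀ (V gn : ℝ → ℝ) (C ℓ δ : ℝ), 2 ≤ ℓ → 0 ≤ δ → δ ≤ 1 / 10000 →
  MonotoneOn V (Ici 0) → (∀ t, 0 ≤ t → 0 ≤ V t ∧ V t ≤ 2 / 3 * t + C) →
  (∀ k : ℕ, IntervalIntegrable gn volume (1 + k * ℓ) (1 + (k + 1) * ℓ)) →
  (∀ t, 1 ≤ t → V t + gn t ≤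
    (2 * Real.pi)⁻¹ * (∫ θ in (0 : ℝ)..(2 * Real.pi), V (t + om δ θ)) + 1 / 10000) →
  (∀ k : ℕ, 146 / 10000 * (k * ℓ) - C ≤
    ∑ j ∈ Finset.range k, ∫ t in (1 + j * ℓ)..(1 + (j + 1) * ℓ), gn t) → False

end Pool.Agent.W722.Sq
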